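import Pool.Agent.N685.FD.Asm3
import Pool.Agent.N685.FD.D3
import Pool.Agent.N685.FD.Levu
import Pool.Agent.N685.FD.Levl
import Pool.Agent.N685.FD.Pru
import Pool.Agent.N685.FD.Cntu

/-!
The large deviation law of the first hitting time of an arbitrary finite set of integers under the maps
`3x+d`, on the whole side of the hitting times which are at most the mean value: counts of integers up
to `x`, counts on the levels, and the moment generating function of the levels.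
-/

set_option autoImplicit false

namespace Pool.Agent.Results.MP_d0d59f_nt.HittingTimesToTheMean

/-- The map `3x+d`. -/
def T (d : ℤ) (x : ℤ) : ℤ := if x % 2 = 0 then x / 2 else (3 * x + d) / 2

/-- The orbit of `n` under `T d` is in `F` at the time `k`, and not earlier. -/
def HitsAt (d : ℤ) (F : Set ℤ) (n : ℤ) (k : ℕ) : Prop :=
  (∀ j < k, (T d)^[j] n ∉ F) ∧ (T d)^[k] n ∈ F

/-- `M(θ) = ½ (2^θ + (2/3)^θ)`. -/
noncomputable def M (θ : ℝ) : ℝ := (1 / 2) * ((2 : ℝ) ^ θ + (2 / 3 : ℝ) ^ θ)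

/-- `g(a) = sup_θ (θ a - log M(θ))`. -/
noncomputable def g (a : ℝ) : ℝ := ⨆ θ : ℝ, (θ * a - Real.log (M θ))

open Pool.Agent.N685.FD Pool.Agent.N685.FD.D3

theorem levu : S_LEVU := t_LEVU
theorem levl : S_LEVL := t_LEVL

/-- Let `d` be odd and prime to `3`, and let `F` be a finite set of integers which contains some
`m ≠ 0` prime to `3`.

(1) For `1 / log 2 < α ≤ 2 / log (4/3)` and every `ε > 0`, for all large `x` the number of the integers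
`n`, `1 ≤ |n| ≤ x`, which hit `F` after at most `α log |n|` steps is between `x^(1 - α g(1/α) - ε)` and
`x^(1 - α g(1/α) + ε)`.

(2) For `½ log (4/3) ≤ t ≤ ¼ log (16/3)` and every `ε > 0`, for all large `k` the number of the `n ≠ 0`
which hit `F` for the first time after exactly `k` steps and have `log |n| ≤ t k` is between
`exp ((t - g(t) - ε) k)` and `exp ((t - g(t) + ε) k)`; and for `¼ log (16/3) ≤ t < log 2` the same for
`log |n| ≥ t k`.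

(3) For every `θ ≥ 0` and `ε > 0`, for all large `k` the set of the `n ≠ 0` which hit `F` for the first
time after exactly `k` steps is finite and the sum of `|n|^(θ - 1)` over it is between
`exp ((log M(θ) - ε) k)` and `exp ((log M(θ) + ε) k)`. -/
theorem result : ∀ d : ℤ, ¬ (2 : ℤ) ∣ d → ¬ (3 : ℤ) ∣ d → ∀ F : Set ℤ, F.Finite →
    (∃ m ∈ F, m ≠ 0 ∧ ¬ (3 : ℤ) ∣ m) →
    (∀ α : ℝ, 1 / Real.log 2 < α → α ≤ 2 / Real.log (4 / 3) → ∀ ε : ℝ, 0 < ε →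
      ∃ X₀ : ℝ, ∀ x : ℝ, X₀ ≤ x →
        x ^ (1 - α * g (1 / α) - ε) ≤
          (Set.ncard {n : ℤ | n ≠ 0 ∧ |(n : ℝ)| ≤ x ∧
            ∃ k : ℕ, HitsAt d F n k ∧ (k : ℝ) ≤ α * Real.log |(n : ℝ)|} : ℝ) ∧
        (Set.ncard {n : ℤ | n ≠ 0 ∧ |(n : ℝ)| ≤ x ∧
            ∃ k : ℕ, HitsAt d F n k ∧ (k : ℝ) ≤ α * Real.log |(n : ℝ)|} : ℝ) ≤
          x ^ (1 - α * g (1 / α) + ε)) ∧
    (∀ t : ℝ, Real.log (4 / 3) / 2 ≤ t → t ≤ Real.log (16 / 3) / 4 → ∀ ε : ℝ, 0 < ε →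
      ∃ k₀ : ℕ, ∀ k : ℕ, k₀ ≤ k →
        Real.exp ((t - g t - ε) * k) ≤
          (Set.ncard {n : ℤ | n ≠ 0 ∧ HitsAt d F n k ∧ Real.log |(n : ℝ)| ≤ t * k} : ℝ) ∧
        (Set.ncard {n : ℤ | n ≠ 0 ∧ HitsAt d F n k ∧ Real.log |(n : ℝ)| ≤ t * k} : ℝ) ≤
          Real.exp ((t - g t + ε) * k)) ∧
    (∀ t : ℝ, Real.log (16 / 3) / 4 ≤ t → t < Real.log 2 → ∀ ε : ℝ, 0 < ε →
      ∃ k₀ : ℕ, ∀ k : ℕ, k₀ ≤ k →
        Real.exp ((t - g t - ε) * k) ≤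
          (Set.ncard {n : ℤ | n ≠ 0 ∧ HitsAt d F n k ∧ t * k ≤ Real.log |(n : ℝ)|} : ℝ) ∧
        (Set.ncard {n : ℤ | n ≠ 0 ∧ HitsAt d F n k ∧ t * k ≤ Real.log |(n : ℝ)|} : ℝ) ≤
          Real.exp ((t - g t + ε) * k)) ∧
    (∀ θ : ℝ, 0 ≤ θ → ∀ ε : ℝ, 0 < ε → ∃ k₀ : ℕ, ∀ k : ℕ, k₀ ≤ k →
      {n : ℤ | n ≠ 0 ∧ HitsAt d F n k}.Finite ∧
      Real.exp ((Real.log (M θ) - ε) * k) ≤
        ∑ᶠ n ∈ {n : ℤ | n ≠ 0 ∧ HitsAt d F n k}, |(n : ℝ)| ^ (θ - 1) ∧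
      ∑ᶠ n ∈ {n : ℤ | n ≠ 0 ∧ HitsAt d F n k}, |(n : ℝ)| ^ (θ - 1) ≤
        Real.exp ((Real.log (M θ) + ε) * k)) := by
  intro d hd2 hd3 F hF hm
  have hd : Adm 3 d := ⟨Or.inl rfl, hd2, hd3⟩
  have hG : Good F := ⟨hF, hm⟩
  refine ⟨fun α h1 h2 ε hε => ?_, (levels levu levl hd hG).1, (levels levu levl hd hG).2, ?_⟩
  · obtain ⟨X₁, h3⟩ := ct_lower ucb_main hd hG h1 h2 hε
    obtain ⟨X₂, h4⟩ := ct_upper t_CNTU hd hF h1 h2 hε
    exact ⟨max X₁ X₂, fun x hx => ⟨h3 x ((le_max_left _ _).trans hx),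
      h4 x ((le_max_right _ _).trans hx)⟩⟩
  · intro θ hθ ε hε
    obtain ⟨k₀, h⟩ := pressure levu t_PRU t_PRU0 t_PRL hd hG θ hθ ε hε
    exact ⟨k₀, fun k hk => ⟨(Pz_eq levu hd hF θ k).1, (h k hk).1, (h k hk).2⟩⟩

end Pool.Agent.Results.MP_d0d59f_nt.HittingTimesToTheMean
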