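import Pool.Agent.N905.EX.MiniU
import Pool.Agent.Results.MP_d0d59f_nt.UniformPredecessors
import Pool.Agent.R344.LS.AF

/-!
# The number of merging classes of the `3x+d` maps (basins of cycles and classes of divergent orbits),
uniformly in `d`

Two integers are in the same merging class of `T_d` if their orbits have an element in common. For ALL odd
`d` prime to `3`, all `X ≥ 1` and `0 < ε ≤ 1`, at most `C |d| ^ 0.06 (1 / ε) ^ 0.94` merging classes contain at
least `ε X` of the integers of `[-X, X]`.  A class whose least absolute value is `m` contains at least the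
proportion `c₀ / max (m, |d|)` and at most the proportion `C (|d| / m) ^ 0.06` of the integers of `[-X, X]`.
The constants do not depend on `d`.

Used: `Pool.Agent.N905.EX` (helper905: tails and least elements with explicit exponents, uniformly in `d`),
`MP_d0d59f_nt.UniformPredecessors` (starting result), `Pool.Agent.R344.LS` (level sums, starting library).
-/

set_option autoImplicit false

namespace Pool.Agent.Results.MP_d0d59f_nt.NumberOfClasses

open Finset Filter Topology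
open Pool.Agent.Results.MP_d0d59f_nt

/-- the `3x+d` map on the integers -/
def T (d x : ℤ) : ℤ := if x % 2 = 0 then x / 2 else (3 * x + d) / 2

/-- the merging class of `a`: the integers whose orbit has an element in common with the orbit of `a` -/
def cls (d a : ℤ) : Set ℤ := {x : ℤ | ∃ j k : ℕ, (T d)^[j] x = (T d)^[k] a}

/-- `E` is a merging class of `T_d`, not the class of `0` -/
def IsClass (d : ℤ) (E : Set ℤ) : Prop := ∃ a : ℤ, a ≠ 0 ∧ E = cls d a

/-- the number of elements of `E` in `[-X, X]` -/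
noncomputable def num (E : Set ℤ) (X : ℝ) : ℝ := ({x : ℤ | x ∈ E ∧ |(x : ℝ)| ≤ X}.ncard : ℝ)

/-- the least absolute value of an element of `E` -/
noncomputable def least (E : Set ℤ) : ℕ := sInf (Int.natAbs '' E)

variable {d : ℤ}

theorem T_zero (d : ℤ) : T d 0 = 0 := by simp [T]

theorem iter_zero (d : ℤ) (k : ℕ) : (T d)^[k] 0 = 0 := Function.iterate_fixed (T_zero d) k

theorem T_ne (hd3 : ¬ (3 : ℤ) ∣ d) (hd : d % 2 = 1) {x : ℤ} (hx : x ≠ 0) : T d x ≠ 0 := by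
  unfold T
  split_ifs with h
  · omega
  · intro h0
    apply hd3
    exact ⟨-x, by omega⟩

theorem iter_ne (hd3 : ¬ (3 : ℤ) ∣ d) (hd : d % 2 = 1) {x : ℤ} (hx : x ≠ 0) (k : ℕ) : (T d)^[k] x ≠ 0 := by
  induction k with
  | zero => exact hx
  | succ k ih =>
    rw [Function.iterate_succ_apply']
    exact T_ne hd3 hd ih

theorem merge_trans {x y z : ℤ} (h1 : ∃ j k : ℕ, (T d)^[j] x = (T d)^[k] y)
    (h2 : ∃ j k : ℕ, (T d)^[j] y = (T d)^[k] z) : ∃ j k : ℕ, (T d)^[j] x = (T d)^[k] z := by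
  obtain ⟨j, k, h⟩ := h1
  obtain ⟨j', k', h'⟩ := h2
  refine ⟨j' + j, k + k', ?_⟩
  rw [Function.iterate_add_apply, h, ← Function.iterate_add_apply, Nat.add_comm j' k,
    Function.iterate_add_apply, h', ← Function.iterate_add_apply]

theorem merge_symm {x y : ℤ} (h : ∃ j k : ℕ, (T d)^[j] x = (T d)^[k] y) :
    ∃ j k : ℕ, (T d)^[j] y = (T d)^[k] x := by
  obtain ⟨j, k, h⟩ := h
  exact ⟨k, j, h.symm⟩

theorem cls_eq {a x : ℤ} (h : x ∈ cls d a) : cls d a = cls d x := by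
  ext z
  exact ⟨fun hz => merge_trans hz (merge_symm h), fun hz => merge_trans hz h⟩

theorem IsClass.eq {E E' : Set ℤ} (h : IsClass d E) (h' : IsClass d E') {x : ℤ} (hx : x ∈ E) (hx' : x ∈ E') :
    E = E' := by
  obtain ⟨a, _, rfl⟩ := h
  obtain ⟨b, _, rfl⟩ := h'
  rw [cls_eq hx, cls_eq hx']

theorem IsClass.iter {E : Set ℤ} (h : IsClass d E) {x : ℤ} (hx : x ∈ E) (k : ℕ) : (T d)^[k] x ∈ E := by
  obtain ⟨a, _, rfl⟩ := h
  obtain ⟨j, m, h⟩ := hx
  refine ⟨j, k + m, ?_⟩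
  rw [← Function.iterate_add_apply, Nat.add_comm j k, Function.iterate_add_apply, h,
    ← Function.iterate_add_apply]

theorem IsClass.ne {E : Set ℤ} (hd3 : ¬ (3 : ℤ) ∣ d) (hd : d % 2 = 1) (h : IsClass d E) {x : ℤ} (hx : x ∈ E) :
    x ≠ 0 := by
  obtain ⟨a, ha, rfl⟩ := h
  obtain ⟨j, m, h⟩ := hx
  rintro rfl
  rw [iter_zero] at h
  exact iter_ne hd3 hd ha m h.symm

theorem cast_natAbs' (z : ℤ) : |(z : ℝ)| = (z.natAbs : ℝ) := by
  rw [← Int.cast_abs, Int.abs_eq_natAbs, Int.cast_natCast]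

theorem least_le {E : Set ℤ} {x : ℤ} (hx : x ∈ E) : (least E : ℝ) ≤ |(x : ℝ)| := by
  rw [cast_natAbs']
  have h : least E ≤ x.natAbs := Nat.sInf_le (⟨x, hx, rfl⟩ : x.natAbs ∈ Int.natAbs '' E)
  exact_mod_cast h

theorem exists_least {E : Set ℤ} (h : IsClass d E) : ∃ m ∈ E, |(m : ℝ)| = least E := by
  have hne : (Int.natAbs '' E).Nonempty := by
    obtain ⟨a, _, rfl⟩ := h
    exact ⟨_, a, ⟨0, 0, rfl⟩, rfl⟩
  obtain ⟨m, hm, h1⟩ := Nat.sInf_mem hne
  refine ⟨m, hm, ?_⟩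
  rw [cast_natAbs', h1]
  rfl

theorem fin_set (P : ℤ → Prop) (X : ℝ) : {x : ℤ | |(x : ℝ)| ≤ X ∧ P x}.Finite := by
  apply (Set.finite_Icc (-⌈X⌉) ⌈X⌉).subset
  rintro x ⟨hx, -⟩
  have h1 := abs_le.1 hx
  have h2 := Int.le_ceil X
  rw [Set.mem_Icc]
  constructor
  · have : (-(⌈X⌉ : ℤ) : ℝ) ≤ x := by linarith
    exact_mod_cast this
  · have : (x : ℝ) ≤ (⌈X⌉ : ℤ) := by linarith
    exact_mod_cast this

theorem fin_num (E : Set ℤ) (X : ℝ) : {x : ℤ | x ∈ E ∧ |(x : ℝ)| ≤ X}.Finite :=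
  (fin_set (fun x => x ∈ E) X).subset fun _ hx => ⟨hx.2, hx.1⟩

/-- the classes with a small least absolute value -/
theorem few_low {A : ℝ} (h : ∀ y : ℝ, 1 ≤ y →
    ∀ F : Finset ℤ, (∀ x ∈ F, |(x : ℝ)| ≤ y ∧ ∀ n : ℕ, |(x : ℝ)| ≤ |(((T d)^[n] x : ℤ) : ℝ)|) →
    (F.card : ℝ) ≤ A * |(d : ℝ)| ^ (6 / 100 : ℝ) * y ^ (94 / 100 : ℝ))
    (S : Finset (Set ℤ)) {y : ℝ} (hy : 1 ≤ y) (hS : ∀ E ∈ S, IsClass d E ∧ (least E : ℝ) ≤ y) :
    (S.card : ℝ) ≤ A * |(d : ℝ)| ^ (6 / 100 : ℝ) * y ^ (94 / 100 : ℝ) := by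
  classical
  have hm0 : ∀ E ∈ S, ∃ m ∈ E, |(m : ℝ)| = least E := fun E hE => exists_least (hS E hE).1
  choose! m hm hm' using hm0
  have hinj : Set.InjOn m S := by
    intro E hE E' hE' he
    rw [mem_coe] at hE hE'
    have h2 := hm E' hE'
    rw [← he] at h2
    exact (hS E hE).1.eq (hS E' hE').1 (hm E hE) h2
  rw [← card_image_of_injOn hinj]
  apply h y hy
  intro x hx
  rw [mem_image] at hx
  obtain ⟨E, hE, rfl⟩ := hx
  refine ⟨by rw [hm' E hE]; exact (hS E hE).2, fun n => ?_⟩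
  rw [hm' E hE]
  exact least_le ((hS E hE).1.iter (hm E hE) n)

/-- the classes with a large least absolute value -/
theorem sum_high (S : Finset (Set ℤ)) {X y : ℝ} (hS : ∀ E ∈ S, IsClass d E ∧ y < (least E : ℝ)) :
    ∑ E ∈ S, num E X ≤
      ({x : ℤ | |(x : ℝ)| ≤ X ∧ ∀ n : ℕ, y < |(((T d)^[n] x : ℤ) : ℝ)|}.ncard : ℝ) := by
  classical
  have h0 : ∀ E : Set ℤ, num E X = (((fin_num E X).toFinset.card : ℕ) : ℝ) := by
    intro E
    unfold num
    rw [Set.ncard_eq_toFinset_card _ (fin_num E X)]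
  simp only [h0]
  rw [← Nat.cast_sum, ← card_biUnion]
  · rw [Set.ncard_eq_toFinset_card _ (fin_set (fun x => ∀ n : ℕ, y < |(((T d)^[n] x : ℤ) : ℝ)|) X)]
    apply Nat.cast_le.2
    apply card_le_card
    intro x hx
    rw [mem_biUnion] at hx
    obtain ⟨E, hE, hx⟩ := hx
    rw [Set.Finite.mem_toFinset] at hx ⊢
    exact ⟨hx.2, fun n => lt_of_lt_of_le (hS E hE).2 (least_le ((hS E hE).1.iter hx.1 n))⟩
  · intro E hE E' hE' hne
    rw [Function.onFun, Finset.disjoint_left]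
    intro x hx hx'
    rw [Set.Finite.mem_toFinset] at hx hx'
    exact hne ((hS E hE).1.eq (hS E' hE').1 hx.1 hx'.1)

/-- the set of the classes with many elements in `[-X, X]` is finite -/
theorem fin_many {X ε : ℝ} (hX : 1 ≤ X) (hε : 0 < ε) : {E : Set ℤ | IsClass d E ∧ ε * X ≤ num E X}.Finite := by
  classical
  have h : ∀ E ∈ {E : Set ℤ | IsClass d E ∧ ε * X ≤ num E X}, ∃ m ∈ E, |(m : ℝ)| ≤ X := by
    rintro E ⟨_, hE⟩
    have h1 : 0 < num E X := lt_of_lt_of_le (by positivity) hE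
    unfold num at h1
    have h2 : 0 < ({x : ℤ | x ∈ E ∧ |(x : ℝ)| ≤ X}).ncard := by exact_mod_cast h1
    obtain ⟨x, hx⟩ := (Set.ncard_pos (fin_num E X)).1 h2
    exact ⟨x, hx.1, hx.2⟩
  choose! m hm hm' using h
  apply Set.Finite.of_injOn (f := m) (t := {x : ℤ | |(x : ℝ)| ≤ X ∧ True})
  · intro E hE
    exact ⟨hm' E hE, trivial⟩
  · intro E hE E' hE' he
    have h2 := hm E' hE'
    rw [← he] at h2
    exact hE.1.eq hE'.1 (hm E hE) h2
  · exact fin_set _ X

/-- a class has an element prime to `3` at most twice as large as needed -/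
theorem prime3 (hd3 : ¬ (3 : ℤ) ∣ d) (hd : d % 2 = 1) {E : Set ℤ} (h : IsClass d E) :
    ∃ a ∈ E, ¬ (3 : ℤ) ∣ a ∧ |(a : ℝ)| ≤ 2 * max (least E : ℝ) |(d : ℝ)| := by
  obtain ⟨m, hm, hm'⟩ := exists_least h
  have hl : (0 : ℝ) ≤ max (least E : ℝ) |(d : ℝ)| := le_max_of_le_right (abs_nonneg _)
  by_cases h3 : (3 : ℤ) ∣ m
  · have hm0 := h.ne hd3 hd hm
    have hodd : m % 2 = 1 := by
      by_contra hev
      have h1 : (T d)^[1] m ∈ E := h.iter hm 1
      have h2 : (T d)^[1] m = m / 2 := by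
        simp only [Function.iterate_one, T]
        rw [if_pos (by omega)]
      rw [h2] at h1
      have h4 : least E ≤ (m / 2).natAbs := Nat.sInf_le (⟨m / 2, h1, rfl⟩ : (m / 2).natAbs ∈ Int.natAbs '' E)
      have h5 : (m.natAbs : ℝ) = (least E : ℝ) := by rw [← cast_natAbs', hm']
      have h6 : m.natAbs = least E := by exact_mod_cast h5
      have h7 : least E ≤ (m / 2).natAbs := h4
      omega
    have h1 : (T d)^[1] m ∈ E := h.iter hm 1
    have h2 : (T d)^[1] m = (3 * m + d) / 2 := by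
      simp only [Function.iterate_one, T]
      rw [if_neg (by omega)]
    rw [h2] at h1
    have h4 : 2 * ((3 * m + d) / 2) = 3 * m + d := by omega
    refine ⟨_, h1, ?_, ?_⟩
    · intro h5
      apply hd3
      have h6 : (3 : ℤ) ∣ 3 * m + d := by
        rw [← h4]
        exact Dvd.dvd.mul_left h5 2
      exact (Int.dvd_add_right (dvd_mul_right 3 m)).1 h6
    · have h5 : 2 * (((3 * m + d) / 2 : ℤ) : ℝ) = 3 * (m : ℝ) + d := by exact_mod_cast h4
      have h6 : |2 * (((3 * m + d) / 2 : ℤ) : ℝ)| ≤ 3 * |(m : ℝ)| + |(d : ℝ)| := by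
        rw [h5]
        refine (abs_add_le _ _).trans ?_
        rw [abs_mul]
        norm_num
      rw [abs_mul, abs_two] at h6
      have h7 := le_max_left (least E : ℝ) |(d : ℝ)|
      have h8 := le_max_right (least E : ℝ) |(d : ℝ)|
      rw [← hm'] at h7
      rw [← hm'] at h8 ⊢
      linarith
  · refine ⟨m, hm, h3, ?_⟩
    rw [hm']
    have h7 := le_max_left (least E : ℝ) |(d : ℝ)|
    linarith

theorem cyc_part (hd3 : ¬ (3 : ℤ) ∣ d) (hd : d % 2 = 1) {z : ℤ} {p : ℕ} (hz : z ≠ 0) (hp : 1 ≤ p)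
    (hpz : (T d)^[p] z = z) :
    ∃ D : ℝ, Tendsto (fun N : ℕ => num (cls d z) N / (2 * N)) atTop (𝓝 D) ∧
        (∀ k : ℕ, Summable fun x : {x : ℤ | (∃ i : ℕ, (T d)^[k] x = (T d)^[i] z) ∧
          ∀ l < k, ¬ ∃ i : ℕ, (T d)^[l] x = (T d)^[i] z} => (1 : ℝ) / |((x : ℤ) : ℝ)|) ∧
        Tendsto (fun k : ℕ => ∑' x : {x : ℤ | (∃ i : ℕ, (T d)^[k] x = (T d)^[i] z) ∧
          ∀ l < k, ¬ ∃ i : ℕ, (T d)^[l] x = (T d)^[i] z}, (1 : ℝ) / |((x : ℤ) : ℝ)|) atTop
          (𝓝 (Real.log (4 / 3) * D)) := by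
  classical
  set F : Finset ℤ := (range p).image fun i => (T d)^[i] z with hF
  have hper : Function.IsPeriodicPt (T d) p z := hpz
  have hmem : ∀ w : ℤ, w ∈ F ↔ ∃ i : ℕ, w = (T d)^[i] z := by
    intro w
    rw [hF, mem_image]
    constructor
    · rintro ⟨i, _, rfl⟩
      exact ⟨i, rfl⟩
    · rintro ⟨i, rfl⟩
      exact ⟨i % p, mem_range.2 (Nat.mod_lt _ hp), hper.iterate_mod_apply i⟩
  obtain ⟨δ₁, δ₂, _, _, _, _, h1, h2, h3, h4⟩ := Pool.Agent.R344.LS.both (Int.odd_iff.2 hd) hd3 F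
  have hset : ∀ k : ℕ, Pool.Agent.R344.LS.LZ d F k = {x : ℤ | (∃ i : ℕ, (T d)^[k] x = (T d)^[i] z) ∧
          ∀ l < k, ¬ ∃ i : ℕ, (T d)^[l] x = (T d)^[i] z} := by
    intro k
    ext x
    constructor
    · rintro ⟨_, h5, h6⟩
      exact ⟨(hmem _).1 h5, fun l hl h7 => h6 l hl ((hmem _).2 h7)⟩
    · rintro ⟨h5, h6⟩
      refine ⟨?_, (hmem _).2 h5, fun l hl h7 => h6 l hl ((hmem _).1 h7)⟩
      rintro rfl
      obtain ⟨i, hi⟩ := h5
      rw [iter_zero] at hi
      exact iter_ne hd3 hd hz i hi.symm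
  have hcls : ∀ x : ℤ, x ∈ cls d z ↔ ∃ k : ℕ, (T d)^[k] x ∈ F := by
    intro x
    constructor
    · rintro ⟨j, k, h⟩
      exact ⟨j, (hmem _).2 ⟨k, h⟩⟩
    · rintro ⟨k, h⟩
      obtain ⟨i, hi⟩ := (hmem _).1 h
      exact ⟨k, i, hi⟩
  have h0 : ∀ x ∈ cls d z, x ≠ 0 := fun x hx => IsClass.ne hd3 hd ⟨z, hz, rfl⟩ hx
  have hnum : ∀ N : ℕ, num (cls d z) N =
      Pool.Agent.H499R2.ND.cnt (fun n : ℕ => ∃ k : ℕ, (Pool.Agent.H499R2.ND.Td d)^[k] (1 * n) ∈ F) N +
      Pool.Agent.H499R2.ND.cnt (fun n : ℕ => ∃ k : ℕ, (Pool.Agent.H499R2.ND.Td d)^[k] (-1 * n) ∈ F) N := by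
    intro N
    unfold num Pool.Agent.H499R2.ND.cnt
    have hf : ∀ P : ℕ → Prop, {n : ℕ | 1 ≤ n ∧ n ≤ N ∧ P n}.Finite := fun P =>
      (Set.finite_Icc 1 N).subset fun n hn => ⟨hn.1, hn.2.1⟩
    have i1 : Function.Injective fun n : ℕ => (1 : ℤ) * n := by
      intro a b hab
      simp only at hab
      omega
    have i2 : Function.Injective fun n : ℕ => (-1 : ℤ) * n := by
      intro a b hab
      simp only at hab
      omega
    rw [← Set.ncard_image_of_injective _ i1, ← Set.ncard_image_of_injective {n : ℕ | 1 ≤ n ∧ n ≤ N ∧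
      ∃ k : ℕ, (Pool.Agent.H499R2.ND.Td d)^[k] (-1 * n) ∈ F} i2, ← Nat.cast_add,
      ← Set.ncard_union_eq ?_ ((hf _).image _) ((hf _).image _)]
    · congr 2
      ext x
      simp only [Set.mem_ofPred_eq, Set.mem_union, Set.mem_image]
      constructor
      · rintro ⟨hx, hxN⟩
        have hx0 := h0 x hx
        rw [cast_natAbs'] at hxN
        have hxN' : x.natAbs ≤ N := by exact_mod_cast hxN
        obtain ⟨k, hk⟩ := (hcls x).1 hx
        rcases lt_or_gt_of_ne hx0 with h | h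
        · right
          refine ⟨x.natAbs, ⟨by omega, hxN', k, ?_⟩, by omega⟩
          have : (-1 : ℤ) * (x.natAbs : ℤ) = x := by omega
          rw [this]
          exact hk
        · left
          refine ⟨x.natAbs, ⟨by omega, hxN', k, ?_⟩, by omega⟩
          have : (1 : ℤ) * (x.natAbs : ℤ) = x := by omega
          rw [this]
          exact hk
      · rintro (⟨n, ⟨hn1, hnN, k, hk⟩, rfl⟩ | ⟨n, ⟨hn1, hnN, k, hk⟩, rfl⟩)
        · refine ⟨(hcls _).2 ⟨k, hk⟩, ?_⟩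
          push_cast
          rw [one_mul, Nat.abs_cast]
          exact_mod_cast hnN
        · refine ⟨(hcls _).2 ⟨k, hk⟩, ?_⟩
          push_cast
          rw [neg_one_mul, abs_neg, Nat.abs_cast]
          exact_mod_cast hnN
    · rw [Set.disjoint_left]
      rintro x ⟨a, ha, rfl⟩ ⟨b, hb, hab⟩
      have := ha.1
      simp only at hab
      omega
  refine ⟨(δ₁ + δ₂) / 2, ?_, ?_, ?_⟩
  · have h5 := (h1.add h2).div_const 2
    refine h5.congr fun N => ?_
    rw [hnum N]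
    ring
  · intro k
    have h5 := h3 k
    rw [hset k] at h5
    exact h5
  · have e : (fun k : ℕ => ∑' x : {x : ℤ | (∃ i : ℕ, (T d)^[k] x = (T d)^[i] z) ∧
          ∀ l < k, ¬ ∃ i : ℕ, (T d)^[l] x = (T d)^[i] z}, (1 : ℝ) / |((x : ℤ) : ℝ)|) =
        fun k : ℕ => ∑' x : Pool.Agent.R344.LS.LZ d F k, (1 : ℝ) / |((x : ℤ) : ℝ)| := by
      funext k
      rw [hset k]
    rw [e]
    have e2 : Real.log (4 / 3) * ((δ₁ + δ₂) / 2) = Real.log (4 / 3) / 2 * (δ₁ + δ₂) := by ring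
    rw [e2]
    exact h4

/-- **The number of merging classes of the `3x+d` maps.** There are `C > 0` and `c₀ > 0` such that for ALL odd `d`
prime to `3` the merging classes `E` of `T_d` (other than the class `{0}` of `0`; they are the basins of the cycles
and the classes of the divergent orbits, if there are any) satisfy:

(1) for all `X ≥ max (least E, |d|)` at least `c₀ X / max (least E, |d|)` of the integers of `[-X, X]` are in `E`;

(2) for all `X ≥ 1` at most `C X (|d| / least E) ^ 0.06` of the integers of `[-X, X]` are in `E`;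

(3) for all `X ≥ 1` and `0 < ε ≤ 1` at most `C |d| ^ 0.06 (1 / ε) ^ 0.94` classes contain at least `ε X` of the
integers of `[-X, X]`;

(4) there are finitely many classes if and only if for some `ε > 0` each class contains, for all large `X`, at
least `ε X` of the integers of `[-X, X]`;

(5) if `E` is the class of an element `z ≠ 0` of a cycle, `T_d ^ p z = z`, then `E` has a natural density `D` with
`D ≥ c₀ / (2 max (least E, |d|))`, and the sum of `1 / |x|` over the integers `x` whose orbit meets the cycle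
for the first time at time `k` converges to `D log (4 / 3)` as `k → ∞`. -/
theorem result :
    ∃ C c₀ : ℝ, 0 < C ∧ 0 < c₀ ∧ ∀ d : ℤ, d % 2 = 1 → ¬ (3 : ℤ) ∣ d →
      (∀ E : Set ℤ, IsClass d E → ∀ X : ℝ, max (least E : ℝ) |(d : ℝ)| ≤ X →
        c₀ * X / max (least E : ℝ) |(d : ℝ)| ≤ num E X) ∧
      (∀ E : Set ℤ, IsClass d E → ∀ X : ℝ, 1 ≤ X →
        num E X ≤ C * X * (|(d : ℝ)| / least E) ^ (6 / 100 : ℝ)) ∧
      (∀ X ε : ℝ, 1 ≤ X → 0 < ε → ε ≤ 1 → {E : Set ℤ | IsClass d E ∧ ε * X ≤ num E X}.Finite ∧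
        ({E : Set ℤ | IsClass d E ∧ ε * X ≤ num E X}.ncard : ℝ) ≤
          C * |(d : ℝ)| ^ (6 / 100 : ℝ) * (1 / ε) ^ (94 / 100 : ℝ)) ∧
      ({E : Set ℤ | IsClass d E}.Finite ↔
        ∃ ε : ℝ, 0 < ε ∧ ∀ E : Set ℤ, IsClass d E → ∀ᶠ X : ℝ in atTop, ε * X ≤ num E X) ∧
      (∀ (z : ℤ) (p : ℕ), z ≠ 0 → 1 ≤ p → (T d)^[p] z = z → ∃ D : ℝ,
        c₀ / (2 * max (least (cls d z) : ℝ) |(d : ℝ)|) ≤ D ∧
        Tendsto (fun N : ℕ => num (cls d z) N / (2 * N)) atTop (𝓝 D) ∧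
        (∀ k : ℕ, Summable fun x : {x : ℤ | (∃ i : ℕ, (T d)^[k] x = (T d)^[i] z) ∧
          ∀ l < k, ¬ ∃ i : ℕ, (T d)^[l] x = (T d)^[i] z} => (1 : ℝ) / |((x : ℤ) : ℝ)|) ∧
        Tendsto (fun k : ℕ => ∑' x : {x : ℤ | (∃ i : ℕ, (T d)^[k] x = (T d)^[i] z) ∧
          ∀ l < k, ¬ ∃ i : ℕ, (T d)^[l] x = (T d)^[i] z}, (1 : ℝ) / |((x : ℤ) : ℝ)|) atTop
          (𝓝 (Real.log (4 / 3) * D))) := by
  classical
  obtain ⟨A, hA, hhigh⟩ := Pool.Agent.N905.EX.threeU_ex
  obtain ⟨B, hB0, hmin⟩ := Pool.Agent.N905.EX.minU_ex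
  obtain ⟨c', _, hc', _, hpred⟩ := UniformPredecessors.result
  obtain ⟨c, hcd⟩ : ∃ c : ℝ, c = 6 / 100 := ⟨_, rfl⟩
  have hcd' : (94 / 100 : ℝ) = 1 - c := by rw [hcd]; norm_num
  rw [← hcd] at hhigh hmin ⊢
  rw [hcd'] at hmin ⊢
  have hc0 : 0 < c := by rw [hcd]; norm_num
  have hc1 : c < 1 := by rw [hcd]; norm_num
  set c₀ : ℝ := min (c' / 2) (1 / 2) with hc₀
  have hc₀p : 0 < c₀ := lt_min (by linarith) (by norm_num)
  refine ⟨max (2 * A) (A + B), c₀, lt_max_of_lt_left (by linarith), hc₀p, fun d hd hd3 => ?_⟩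
  have hdo := Int.odd_iff.2 hd
  have hd1 : (1 : ℝ) ≤ |(d : ℝ)| := by
    have h0 : d ≠ 0 := by rintro rfl; simp at hd
    exact_mod_cast Int.one_le_abs h0
  -- part 1
  have p1 : ∀ E : Set ℤ, IsClass d E → ∀ X : ℝ, max (least E : ℝ) |(d : ℝ)| ≤ X →
        c₀ * X / max (least E : ℝ) |(d : ℝ)| ≤ num E X := by
    intro E hE X hX
    obtain ⟨a, ha, ha3, hab⟩ := prime3 hd3 hd hE
    set M : ℝ := max (least E : ℝ) |(d : ℝ)| with hM
    have hM1 : 1 ≤ M := le_max_of_le_right hd1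
    have hX0 : 0 < X := by linarith
    rcases le_or_gt (max |(a : ℝ)| |(d : ℝ)|) X with h | h
    · have h1 := hpred d a hd hd3 ha3 X h
      have hma : max |(a : ℝ)| |(d : ℝ)| ≤ 2 * M := max_le hab (by
        have := le_max_right (least E : ℝ) |(d : ℝ)|
        linarith)
      have hma0 : 0 < max |(a : ℝ)| |(d : ℝ)| := lt_of_lt_of_le (by linarith) (le_max_right _ _)
      have h2 : c₀ * X / M ≤ c' * X / max |(a : ℝ)| |(d : ℝ)| := by
        rw [div_le_div_iff₀ (by linarith) hma0]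
        have h3 : c₀ ≤ c' / 2 := min_le_left _ _
        calc c₀ * X * max |(a : ℝ)| |(d : ℝ)| ≤ (c' / 2) * X * (2 * M) := by gcongr
          _ = c' * X * M := by ring
      refine (h2.trans h1).trans ?_
      unfold num
      apply Nat.cast_le.2
      apply Set.ncard_le_ncard _ (fin_num E X)
      rintro x ⟨-, hx, -, j, -, hj⟩
      refine ⟨?_, hx⟩
      obtain ⟨b, _, rfl⟩ := hE
      obtain ⟨j', k', hjk⟩ := ha
      refine ⟨j' + j, k', ?_⟩
      rw [Function.iterate_add_apply]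
      have : (T d)^[j] x = a := hj
      rw [this, hjk]
    · obtain ⟨m, hm, hm'⟩ := exists_least hE
      have h1 : (1 : ℝ) ≤ num E X := by
        unfold num
        have h2 : 0 < ({x : ℤ | x ∈ E ∧ |(x : ℝ)| ≤ X}).ncard :=
          (Set.ncard_pos (fin_num E X)).2 ⟨m, hm, by rw [hm']; exact (le_max_left _ _).trans hX⟩
        exact_mod_cast h2
      refine le_trans ?_ h1
      have h2 : X < 2 * M := lt_of_lt_of_le h (max_le hab (by
        have := le_max_right (least E : ℝ) |(d : ℝ)|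
        linarith))
      rw [div_le_one (by linarith)]
      have h3 : c₀ ≤ 1 / 2 := min_le_right _ _
      nlinarith
  -- the sets with a large least absolute value
  have hsum : ∀ (X y : ℝ), 1 ≤ X → 0 < y → ∀ S : Finset (Set ℤ), (∀ E ∈ S, IsClass d E ∧ y < (least E : ℝ)) →
      ∑ E ∈ S, num E X ≤ A * X * (|(d : ℝ)| / y) ^ c := by
    intro X y hX hy S hS
    exact (sum_high S hS).trans (hhigh d hdo hd3 X y hX hy)
  have hlow : ∀ (y : ℝ), 1 ≤ y → ∀ S : Finset (Set ℤ), (∀ E ∈ S, IsClass d E ∧ (least E : ℝ) ≤ y) →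
      (S.card : ℝ) ≤ B * |(d : ℝ)| ^ c * y ^ (1 - c) := by
    intro y hy S hS
    have h1 := few_low (A := B) (d := d) (by
      rw [← hcd, hcd']
      intro y hy F hF
      exact hmin d hdo y hy F hF) S hy hS
    rwa [← hcd, hcd'] at h1
  -- part 3
  have p3 : ∀ X ε : ℝ, 1 ≤ X → 0 < ε → ε ≤ 1 → ∀ S : Finset (Set ℤ),
      (∀ E ∈ S, IsClass d E ∧ ε * X ≤ num E X) → (S.card : ℝ) ≤ (A + B) * |(d : ℝ)| ^ c * (1 / ε) ^ (1 - c) := by
    intro X ε hX hε hε1 S hS
    have hy : 1 ≤ 1 / ε := by rw [le_div_iff₀ hε]; linarith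
    have hy0 : 0 < 1 / ε := by positivity
    set S₁ := S.filter fun E => (least E : ℝ) ≤ 1 / ε with hS₁
    set S₂ := S.filter fun E => ¬ (least E : ℝ) ≤ 1 / ε with hS₂
    have hcard : S₁.card + S₂.card = S.card := card_filter_add_card_filter_not _
    have h1 : (S₁.card : ℝ) ≤ B * |(d : ℝ)| ^ c * (1 / ε) ^ (1 - c) :=
      hlow _ hy _ fun E hE => ⟨(hS E (mem_filter.1 hE).1).1, (mem_filter.1 hE).2⟩
    have h2 : ∑ E ∈ S₂, num E X ≤ A * X * (|(d : ℝ)| / (1 / ε)) ^ c :=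
      hsum X _ hX hy0 _ fun E hE => ⟨(hS E (mem_filter.1 hE).1).1, not_le.1 (mem_filter.1 hE).2⟩
    have h3 : (S₂.card : ℝ) * (ε * X) ≤ ∑ E ∈ S₂, num E X := by
      rw [← nsmul_eq_mul]
      exact card_nsmul_le_sum _ _ _ fun E hE => (hS E (mem_filter.1 hE).1).2
    have h4 : (|(d : ℝ)| / (1 / ε)) ^ c = |(d : ℝ)| ^ c * ε ^ c := by
      rw [div_div_eq_mul_div, div_one, Real.mul_rpow (abs_nonneg _) hε.le]
    have h5 : (1 / ε) ^ (1 - c) = ε ^ c / ε := by
      rw [one_div, Real.inv_rpow hε.le, ← Real.rpow_neg hε.le, neg_sub, Real.rpow_sub hε, Real.rpow_one]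
    have h6 : (S₂.card : ℝ) ≤ A * |(d : ℝ)| ^ c * (1 / ε) ^ (1 - c) := by
      rw [h4] at h2
      have h7 := h3.trans h2
      rw [h5]
      rw [← mul_div_assoc, le_div_iff₀ hε]
      have hX0 : 0 < X := by linarith
      have h8 : ((S₂.card : ℝ) * ε) * X ≤ (A * |(d : ℝ)| ^ c * ε ^ c) * X := by nlinarith
      exact le_of_mul_le_mul_right h8 hX0
    have h9 : (S.card : ℝ) = S₁.card + S₂.card := by rw [← hcard]; push_cast; ring
    rw [h9]
    calc (S₁.card : ℝ) + S₂.card ≤ B * |(d : ℝ)| ^ c * (1 / ε) ^ (1 - c) + A * |(d : ℝ)| ^ c * (1 / ε) ^ (1 - c) :=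
          add_le_add h1 h6
      _ = (A + B) * |(d : ℝ)| ^ c * (1 / ε) ^ (1 - c) := by ring
  refine ⟨p1, ?_, ?_, ?_, ?_⟩
  · intro E hE X hX
    obtain ⟨m, hm, hm'⟩ := exists_least hE
    have hL : 1 ≤ (least E : ℝ) := by
      rw [← hm']
      exact_mod_cast Int.one_le_abs (hE.ne hd3 hd hm)
    have h1 := hsum X ((least E : ℝ) / 2) hX (by positivity) {E} (by
      intro E' hE'
      rw [mem_singleton] at hE'
      subst hE'
      exact ⟨hE, by linarith⟩)
    rw [sum_singleton] at h1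
    refine h1.trans ?_
    have h2 : |(d : ℝ)| / ((least E : ℝ) / 2) = 2 * (|(d : ℝ)| / least E) := by field_simp
    rw [h2, Real.mul_rpow (by norm_num) (by positivity)]
    have h3 : (2 : ℝ) ^ c ≤ 2 := by
      calc (2 : ℝ) ^ c ≤ 2 ^ (1 : ℝ) := Real.rpow_le_rpow_of_exponent_le (by norm_num) hc1.le
        _ = 2 := by norm_num
    have h4 : 0 ≤ (|(d : ℝ)| / least E) ^ c := Real.rpow_nonneg (by positivity) _
    calc A * X * (2 ^ c * (|(d : ℝ)| / least E) ^ c) ≤ A * X * (2 * (|(d : ℝ)| / least E) ^ c) := by gcongr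
      _ = (2 * A) * (X * (|(d : ℝ)| / least E) ^ c) := by ring
      _ ≤ max (2 * A) (A + B) * (X * (|(d : ℝ)| / least E) ^ c) := by
          gcongr
          exact le_max_left _ _
      _ = _ := by ring
  · intro X ε hX hε hε1
    refine ⟨fin_many hX hε, ?_⟩
    rw [Set.ncard_eq_toFinset_card _ (fin_many hX hε)]
    refine (p3 X ε hX hε hε1 _ fun E hE => by rwa [Set.Finite.mem_toFinset] at hE).trans ?_
    have h4 : 0 ≤ (1 / ε) ^ (1 - c) := Real.rpow_nonneg (by positivity) _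
    gcongr
    exact le_max_right _ _
  · constructor
    · intro hfin
      -- the largest of the numbers max (least E) |d|
      obtain ⟨R, hR⟩ : ∃ R : ℝ, ∀ E ∈ {E : Set ℤ | IsClass d E}, max (least E : ℝ) |(d : ℝ)| ≤ R := by
        obtain ⟨R, hR⟩ := (hfin.image fun E : Set ℤ => max (least E : ℝ) |(d : ℝ)|).bddAbove
        exact ⟨R, fun E hE => hR ⟨E, hE, rfl⟩⟩
      have hR' : 0 < max R 1 := lt_max_of_lt_right one_pos
      refine ⟨c₀ / max R 1, by positivity, fun E hE => ?_⟩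
      filter_upwards [eventually_ge_atTop (max (least E : ℝ) |(d : ℝ)|)] with X hX
      refine le_trans ?_ (p1 E hE X hX)
      have hM1 : 1 ≤ max (least E : ℝ) |(d : ℝ)| := le_max_of_le_right hd1
      have h1 : max (least E : ℝ) |(d : ℝ)| ≤ max R 1 := (hR E hE).trans (le_max_left _ _)
      rw [div_mul_eq_mul_div]
      have hX0 : 0 ≤ X := by linarith
      gcongr
    · rintro ⟨ε, hε, h⟩
      by_contra hinf
      have hinf' : {E : Set ℤ | IsClass d E}.Infinite := hinf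
      set ε' : ℝ := min ε 1 with hε'
      have hε'0 : 0 < ε' := lt_min hε one_pos
      obtain ⟨n, hn⟩ := exists_nat_gt ((A + B) * |(d : ℝ)| ^ c * (1 / ε') ^ (1 - c))
      obtain ⟨S, hS, hcard⟩ := hinf'.exists_subset_card_eq n
      have h1 : ∀ᶠ X : ℝ in atTop, ∀ E ∈ S, ε * X ≤ num E X := by
        rw [Filter.eventually_all_finset]
        intro E hE
        exact h E (hS hE)
      obtain ⟨X, hX1, hX⟩ := ((eventually_ge_atTop (1 : ℝ)).and h1).exists
      have h2 := p3 X ε' hX1 hε'0 (min_le_right _ _) S fun E hE => ⟨hS hE, by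
        refine le_trans ?_ (hX E hE)
        have h3 : ε' ≤ ε := min_le_left _ _
        gcongr⟩
      rw [hcard] at h2
      linarith
  · intro z p hz hp hpz
    obtain ⟨D, h1, h2, h3⟩ := cyc_part hd3 hd hz hp hpz
    refine ⟨D, ?_, h1, h2, h3⟩
    have hE : IsClass d (cls d z) := ⟨z, hz, rfl⟩
    have hM1 : 1 ≤ max (least (cls d z) : ℝ) |(d : ℝ)| := le_max_of_le_right hd1
    refine ge_of_tendsto h1 ?_
    filter_upwards [eventually_ge_atTop ⌈max (least (cls d z) : ℝ) |(d : ℝ)|⌉₊] with N hN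
    have hN' : max (least (cls d z) : ℝ) |(d : ℝ)| ≤ N := (Nat.le_ceil _).trans (by exact_mod_cast hN)
    have hN0 : (0 : ℝ) < N := by linarith
    have h4 := p1 _ hE N hN'
    rw [le_div_iff₀ (by positivity)]
    refine le_trans (le_of_eq ?_) h4
    have hM0 : max (least (cls d z) : ℝ) |(d : ℝ)| ≠ 0 := by linarith
    field_simp

end Pool.Agent.Results.MP_d0d59f_nt.NumberOfClasses
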