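import Pool.Agent.N903.Shelf.PrimeSupportCycles

set_option autoImplicit false

/-!
# The primes which divide the elements of a cycle of the `3x+d` map, uniformly in `d`

Let `d` be odd and not divisible by `3`. Every cycle of `T_d` with `p ≥ 3` elements contains multiples of
at least `c (log p) ^ 2 / ((log (3 + |d|)) ^ 4 log log p)` different primes, with an absolute constant
`c > 0`. So for a fixed `d` the elements of the cycles of length `p` cannot be composed of
`o((log p) ^ 2 / log log p)` primes, and cycles with few primes are short for all `d` at once.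

The proof (larger sieve for windows of about `log p` consecutive terms) is in the helper files
`Pool.Agent.N903`.
-/

namespace Pool.Agent.Results.MP_d0d59f_nt.PrimesOfCycles

/-- The `3x+d` map on the integers. -/
def T (d x : ℤ) : ℤ := if x % 2 = 0 then x / 2 else (3 * x + d) / 2

/-- `Z` is a cycle (periodic orbit) of `T_d`. -/
def IsCycle (d : ℤ) (Z : Finset ℤ) : Prop :=
  ∃ (x : ℤ) (p : ℕ), 1 ≤ p ∧ (T d)^[p] x = x ∧ Z = (Finset.range p).image fun i => (T d)^[i] x

/-- The set of the primes which divide at least one element of `Z`. -/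
def primes (Z : Finset ℤ) : Finset ℕ := Z.biUnion fun x => x.natAbs.primeFactors

theorem T_eq (d : ℤ) : T d = Pool.Agent.N903.Shelf.PrimeSupportCycles.T 3 d := by
  funext x
  rfl

theorem iterate_zero_eq (d : ℤ) (i : ℕ) : (T d)^[i] 0 = 0 := by
  induction i with
  | zero => rfl
  | succ n ih =>
    rw [Function.iterate_succ_apply']
    rw [ih]
    rfl

/-- the fixed point `0` is the only cycle which contains `0` -/
theorem zero_cycle {d : ℤ} {Z : Finset ℤ} (hZ : IsCycle d Z) (h0 : (0 : ℤ) ∈ Z) : Z ⊆ {0} := by
  obtain ⟨x, p, hp, hper, rfl⟩ := hZ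
  rw [Finset.mem_image] at h0
  obtain ⟨i, hi, hi0⟩ := h0
  rw [Finset.mem_range] at hi
  have hx : x = 0 := by
    have h1 : (T d)^[p] x = (T d)^[p - i] ((T d)^[i] x) := by
      rw [← Function.iterate_add_apply]
      congr 2
      omega
    rw [hi0, iterate_zero_eq, hper] at h1
    exact h1
  intro y hy
  rw [Finset.mem_image] at hy
  obtain ⟨j, _, rfl⟩ := hy
  rw [hx, iterate_zero_eq, Finset.mem_singleton]

/-- **The primes of a cycle of the `3x+d` map.** Let `d` be odd and not divisible by `3`, and let `Z` be a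
cycle of `T_d` with `p ≥ 3` elements. Then the number `r` of the primes which divide at least one element
of `Z` satisfies `(log p) ^ 2 ≤ 10 ^ 19 (log (3 + |d|)) ^ 4 r log log p`. -/
theorem result (d : ℤ) (hd : d % 2 = 1) (hd3 : ¬ (3 : ℤ) ∣ d) (Z : Finset ℤ) (hZ : IsCycle d Z)
    (h3 : 3 ≤ Z.card) :
    (Real.log Z.card) ^ 2 ≤
      10 ^ 19 * Real.log (3 + |(d : ℝ)|) ^ 4 * (primes Z).card * Real.log (Real.log Z.card) := by
  have h0 : (0 : ℤ) ∉ Z := by
    intro h
    have h1 := Finset.card_le_card (zero_cycle hZ h)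
    rw [Finset.card_singleton] at h1
    omega
  have hc : IsCoprime (3 : ℤ) d := by
    have h1 : Prime (3 : ℤ) := Int.prime_three
    exact (Prime.coprime_iff_not_dvd h1).2 hd3
  have hZ' : Pool.Agent.N903.Shelf.PrimeSupportCycles.IsCycle 3 d Z := by
    obtain ⟨x, p, hp, hper, hZe⟩ := hZ
    rw [T_eq] at hper hZe
    exact ⟨x, p, hp, hper, hZe⟩
  have := Pool.Agent.N903.Shelf.PrimeSupportCycles.result 3 d le_rfl (by norm_num) hd hc Z hZ' h0 h3
  push_cast at this
  exact this

end Pool.Agent.Results.MP_d0d59f_nt.PrimesOfCycles
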