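import Pool.Agent.N43.SC.Uniform

set_option autoImplicit false

/-! # Short cycles of the `3x+d` maps come from small divisors of `d`

`Q(L, M, D)` is the number of the odd `d ≤ D` for which the `3x+d` map `T_d` has a cycle with at most `L`
elements through an integer `x` with `d / gcd (x, d) > M`. We prove, with one constant `C`,

`Q(L, M, D) ≤ C (log L) D M^(-1 / (24 log L))`  for all `D ≥ 1`, `L ≥ 2`, `M ≥ 1`.

A cycle through `x` is `g = gcd (x, d)` times a primitive cycle of `T_m`, `m = d / g`, so this bounds the
number of the `d` which have a short cycle that does not come from a divisor `m ≤ M` of `d`. The bound is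
uniform in `D`.

Lagarias (The set of rational cycles for the 3x+1 problem, 1990) proved that infinitely many `d` have no
primitive cycle with fewer than `d^(1/3)` elements.

Method. A primitive cycle of `T_m` with `n` elements, `k` of them odd, forces `m ∣ 2^n - 3^k`. So the prime
factors of `m` belong to a set of at most `2 L^3` primes. A set of at most `N` primes composes at most
`C x^(1 - 1/(4 log (N + 3)))` of the integers up to `x` (induction on `x` with the sum of the logarithms of
these integers, `N43.SC.fac_bound`). The multiples of such `m` are summed over dyadic blocks above `M`.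

Author: helper43. -/

namespace Pool.Agent.Results.MP_d0d59f_nt.ShortCyclesOfDivisors

/-- The `3x+d` map on the integers. -/
def T (d x : ℤ) : ℤ := if Even x then x / 2 else (3 * x + d) / 2

/-- `Q(L, M, D)`: the number of the odd positive integers `d ≤ D` for which there is an integer `x` with
`T_d^n x = x` for some `1 ≤ n ≤ L` and `d / gcd (x, d) > M`. -/
noncomputable def Q (L M D : ℝ) : ℕ :=
  Nat.card {d : ℕ // Odd d ∧ (d : ℝ) ≤ D ∧
    ∃ x : ℤ, (∃ n : ℕ, 1 ≤ n ∧ (n : ℝ) ≤ L ∧ (T d)^[n] x = x) ∧ M * (Int.gcd x d : ℝ) < d}

/-- A uniform bound for the number of the odd `d ≤ D` for which `T_d` has a cycle with at most `L` elements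
that does not come from a divisor `m ≤ M` of `d`. -/
theorem result : ∃ C : ℝ, ∀ D L M : ℝ, 1 ≤ D → 2 ≤ L → 1 ≤ M →
    (Q L M D : ℝ) ≤ C * Real.log L * D * M ^ (-(1 / (24 * Real.log L))) := by
  obtain ⟨C, -, h⟩ := Pool.Agent.N43.SC.uniform
  exact ⟨C, h⟩

end Pool.Agent.Results.MP_d0d59f_nt.ShortCyclesOfDivisors
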